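import Pool.Agent.Helper93.KP.St

set_option autoImplicit false

noncomputable section

namespace Pool.Agent.Helper79.KP

open Finset Filter Topology Pool.Agent.Helper93.KP
open Pool.Agent.Helper15.AB (ee Kl StDB StMT)

/-- number of the `t` near the ends -/
private theorem near_card (a k : ℕ) (η : ℝ) (ha : 2 ≤ a) (hka : k ≤ a) (hη : 0 < η) :
    (((NN a).filter (fun t : ℕ => (t : ℝ) ≤ (a : ℝ) ^ 2 + 3 * η * a ^ 2 + k + 1 ∨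
      4 * (a : ℝ) ^ 2 - 8 * η * a ^ 2 ≤ t)).card : ℝ) ≤ 11 * (η * (a : ℝ) ^ 2 + a) := by
  have hk : (k : ℝ) ≤ a := by exact_mod_cast hka
  have ha2 : (2 : ℝ) ≤ a := by exact_mod_cast ha
  have hηa : 0 ≤ η * (a : ℝ) ^ 2 := mul_nonneg hη.le (sq_nonneg _)
  rw [filter_or]
  have h1 : ((NN a).filter (fun t : ℕ => (t : ℝ) ≤ (a : ℝ) ^ 2 + 3 * η * a ^ 2 + k + 1)).card ≤
      ⌊(a : ℝ) ^ 2 + 3 * η * a ^ 2 + k + 1⌋₊ - a ^ 2 := by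
    rw [← Nat.card_Ioc]
    apply card_le_card
    intro b hb
    rw [mem_filter, NN, mem_Ioc] at hb
    rw [mem_Ioc]
    exact ⟨hb.1.1, Nat.le_floor hb.2⟩
  have h2 : ((NN a).filter (fun t : ℕ => 4 * (a : ℝ) ^ 2 - 8 * η * a ^ 2 ≤ t)).card ≤
      4 * a ^ 2 + 1 - ⌈4 * (a : ℝ) ^ 2 - 8 * η * a ^ 2⌉₊ := by
    rw [← Nat.card_Icc]
    apply card_le_card
    intro b hb
    rw [mem_filter, NN, mem_Ioc] at hb
    rw [mem_Icc]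
    exact ⟨Nat.ceil_le.2 hb.2, hb.1.2⟩
  have hsub : ∀ (x y : ℕ) (z : ℝ), 0 ≤ z → (x : ℝ) - y ≤ z → ((x - y : ℕ) : ℝ) ≤ z := by
    intro x y z h0 h
    rcases le_total y x with h1 | h1
    · rw [Nat.cast_sub h1]; exact h
    · rw [Nat.sub_eq_zero_of_le h1]; simpa using h0
  have h3 : ((⌊(a : ℝ) ^ 2 + 3 * η * a ^ 2 + k + 1⌋₊ - a ^ 2 : ℕ) : ℝ) ≤
      3 * (η * (a : ℝ) ^ 2) + k + 1 := by
    apply hsub _ _ _ (by positivity)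
    have h4 := Nat.floor_le (a := (a : ℝ) ^ 2 + 3 * η * a ^ 2 + k + 1) (by positivity)
    push_cast
    linarith
  have h6 : ((4 * a ^ 2 + 1 - ⌈4 * (a : ℝ) ^ 2 - 8 * η * a ^ 2⌉₊ : ℕ) : ℝ) ≤
      8 * (η * (a : ℝ) ^ 2) + 1 := by
    apply hsub _ _ _ (by positivity)
    have h4 := Nat.le_ceil (4 * (a : ℝ) ^ 2 - 8 * η * a ^ 2)
    push_cast
    linarith
  have h7 := card_union_le ((NN a).filter (fun t : ℕ => (t : ℝ) ≤ (a : ℝ) ^ 2 + 3 * η * a ^ 2 + k + 1))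
    ((NN a).filter (fun t : ℕ => 4 * (a : ℝ) ^ 2 - 8 * η * a ^ 2 ≤ t))
  have h8 : ((((NN a).filter (fun t : ℕ => (t : ℝ) ≤ (a : ℝ) ^ 2 + 3 * η * a ^ 2 + k + 1)) ∪
    ((NN a).filter (fun t : ℕ => 4 * (a : ℝ) ^ 2 - 8 * η * a ^ 2 ≤ t))).card : ℝ) ≤
      ((⌊(a : ℝ) ^ 2 + 3 * η * a ^ 2 + k + 1⌋₊ - a ^ 2 : ℕ) : ℝ) +
        ((4 * a ^ 2 + 1 - ⌈4 * (a : ℝ) ^ 2 - 8 * η * a ^ 2⌉₊ : ℕ) : ℝ) := by
    exact_mod_cast h7.trans (Nat.add_le_add h1 h2)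
  linarith

private theorem vk_bd (a k t : ℕ) (ha : 2 ≤ a) (hk1 : 1 ≤ k) (hka : k ≤ a) (ht : t ∈ NN a) :
    1 ≤ vk t k ∧ vk t k ≤ 4 * a ^ 3 := by
  rw [NN, mem_Ioc] at ht
  have h1 : a * a < t := by
    have := ht.1
    rwa [sq] at this
  have h2 : a * 2 ≤ a * a := Nat.mul_le_mul_left a ha
  have h3 : 2 ≤ t - k := by omega
  constructor
  · unfold vk
    have h4 : 1 * 2 ≤ k * (t - k) := Nat.mul_le_mul hk1 h3
    omega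
  · unfold vk
    calc k * (t - k) - 1 ≤ k * (t - k) := Nat.sub_le _ _
      _ ≤ a * (4 * a ^ 2) := Nat.mul_le_mul hka ((Nat.sub_le _ _).trans ht.2)
      _ = 4 * a ^ 3 := by ring

private theorem pair_card (M N v : ℕ) (hv : 1 ≤ v) :
    (((Icc 1 M) ×ˢ (Icc 1 N)).filter (fun z : ℕ × ℕ => z.1 * z.2 ∣ v)).card ≤
      v.divisors.card ^ 2 := by
  have h2 : (((Icc 1 M) ×ˢ (Icc 1 N)).filter (fun z : ℕ × ℕ => z.1 * z.2 ∣ v)).card ≤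
      (v.divisors ×ˢ v.divisors).card := by
    apply card_le_card
    intro x hx
    rw [mem_filter] at hx
    rw [mem_product, Nat.mem_divisors, Nat.mem_divisors]
    exact ⟨⟨(Dvd.intro _ rfl).trans hx.2, by omega⟩, ⟨(Dvd.intro_left _ rfl).trans hx.2, by omega⟩⟩
  rw [card_product] at h2
  rw [sq]
  exact h2

private theorem comm5 (A B F : Finset ℕ) (g : ℕ → ℕ → ℕ → ℕ → ℕ → ℕ) :
    ∑ m ∈ A, ∑ n ∈ B, ∑ x ∈ A, ∑ y ∈ B, ∑ t ∈ F, g m n x y t =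
      ∑ t ∈ F, ∑ m ∈ A, ∑ n ∈ B, ∑ x ∈ A, ∑ y ∈ B, g m n x y t := by
  calc ∑ m ∈ A, ∑ n ∈ B, ∑ x ∈ A, ∑ y ∈ B, ∑ t ∈ F, g m n x y t
      = ∑ m ∈ A, ∑ n ∈ B, ∑ x ∈ A, ∑ t ∈ F, ∑ y ∈ B, g m n x y t :=
        sum_congr rfl fun m _ => sum_congr rfl fun n _ => sum_congr rfl fun x _ => sum_comm
    _ = ∑ m ∈ A, ∑ n ∈ B, ∑ t ∈ F, ∑ x ∈ A, ∑ y ∈ B, g m n x y t :=
        sum_congr rfl fun m _ => sum_congr rfl fun n _ => sum_comm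
    _ = ∑ m ∈ A, ∑ t ∈ F, ∑ n ∈ B, ∑ x ∈ A, ∑ y ∈ B, g m n x y t :=
        sum_congr rfl fun m _ => sum_comm
    _ = _ := sum_comm

private theorem four_sum (M N k k' : ℕ) (F : Finset ℕ)
    (h1 : ∀ t ∈ F, 1 ≤ vk t k) (h2 : ∀ t ∈ F, 1 ≤ vk t k') :
    ∑ m ∈ Icc 1 M, ∑ n ∈ Icc 1 N, ∑ x ∈ Icc 1 M, ∑ y ∈ Icc 1 N,
      (F.filter (fun t : ℕ => (m * n) ∣ vk t k ∧ (x * y) ∣ vk t k')).card ≤
      ∑ t ∈ F, (vk t k).divisors.card ^ 2 * (vk t k').divisors.card ^ 2 := by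
  have e1 : ∀ m n x y : ℕ, (F.filter (fun t : ℕ => (m * n) ∣ vk t k ∧ (x * y) ∣ vk t k')).card =
      ∑ t ∈ F, (if (m * n) ∣ vk t k then 1 else 0) * (if (x * y) ∣ vk t k' then 1 else 0) := by
    intro m n x y
    rw [card_filter]
    refine sum_congr rfl fun t _ => ?_
    by_cases c1 : (m * n) ∣ vk t k
    · by_cases c2 : (x * y) ∣ vk t k' <;> simp [c1, c2]
    · simp [c1]
  have e2 : ∑ m ∈ Icc 1 M, ∑ n ∈ Icc 1 N, ∑ x ∈ Icc 1 M, ∑ y ∈ Icc 1 N,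
      (F.filter (fun t : ℕ => (m * n) ∣ vk t k ∧ (x * y) ∣ vk t k')).card =
      ∑ t ∈ F, (∑ m ∈ Icc 1 M, ∑ n ∈ Icc 1 N, (if (m * n) ∣ vk t k then 1 else 0)) *
        ∑ x ∈ Icc 1 M, ∑ y ∈ Icc 1 N, (if (x * y) ∣ vk t k' then 1 else 0) := by
    have e3 : ∀ t ∈ F, (∑ m ∈ Icc 1 M, ∑ n ∈ Icc 1 N, (if (m * n) ∣ vk t k then 1 else 0)) *
        ∑ x ∈ Icc 1 M, ∑ y ∈ Icc 1 N, (if (x * y) ∣ vk t k' then 1 else 0) =
        ∑ m ∈ Icc 1 M, ∑ n ∈ Icc 1 N, ∑ x ∈ Icc 1 M, ∑ y ∈ Icc 1 N,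
          (if (m * n) ∣ vk t k then 1 else 0) * (if (x * y) ∣ vk t k' then 1 else 0) := by
      intro t _
      rw [sum_mul]
      refine sum_congr rfl fun m _ => ?_
      rw [sum_mul]
      refine sum_congr rfl fun n _ => ?_
      rw [mul_sum]
      refine sum_congr rfl fun x _ => ?_
      rw [mul_sum]
    rw [sum_congr rfl e3]
    simp only [e1]
    exact comm5 _ _ _ _
  rw [e2]
  refine sum_le_sum fun t ht => ?_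
  have q1 := pair_card M N (vk t k) (h1 t ht)
  have q2 := pair_card M N (vk t k') (h2 t ht)
  rw [card_filter, sum_product] at q1 q2
  exact Nat.mul_le_mul q1 q2

theorem hBLE (hDB : StDB) : StBLE := by
  intro ε hε
  obtain ⟨D, hD1, hD⟩ := hDB (ε / 12) (by positivity)
  refine ⟨11 * (D * (4 : ℝ) ^ (ε / 12)) ^ 4, by positivity, ?_⟩
  intro a k k' M N η ha hk1 hka hk1' hka' hη
  have haR : (0 : ℝ) < a := by
    have : 0 < a := by omega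
    exact_mod_cast this
  set F := (NN a).filter (fun t : ℕ => (t : ℝ) ≤ (a : ℝ) ^ 2 + 3 * η * a ^ 2 + k + 1 ∨
        4 * (a : ℝ) ^ 2 - 8 * η * a ^ 2 ≤ t) with hF
  have hFN : ∀ t ∈ F, t ∈ NN a := fun t ht => (mem_filter.1 ht).1
  have e1 : ∀ m n x y : ℕ, ((NN a).filter (fun t : ℕ => ((t : ℝ) ≤ (a : ℝ) ^ 2 + 3 * η * a ^ 2 + k + 1 ∨
        4 * (a : ℝ) ^ 2 - 8 * η * a ^ 2 ≤ t) ∧ (m * n) ∣ vk t k ∧ (x * y) ∣ vk t k')) =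
      F.filter (fun t : ℕ => (m * n) ∣ vk t k ∧ (x * y) ∣ vk t k') := by
    intro m n x y
    rw [hF, filter_filter]
  simp only [e1]
  have h1 := four_sum M N k k' F (fun t ht => (vk_bd a k t ha hk1 hka (hFN t ht)).1)
    (fun t ht => (vk_bd a k' t ha hk1' hka' (hFN t ht)).1)
  have h2 : ∑ m ∈ Icc 1 M, ∑ n ∈ Icc 1 N, ∑ x ∈ Icc 1 M, ∑ y ∈ Icc 1 N,
      ((F.filter (fun t : ℕ => (m * n) ∣ vk t k ∧ (x * y) ∣ vk t k')).card : ℝ) ≤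
      ∑ t ∈ F, ((vk t k).divisors.card : ℝ) ^ 2 * ((vk t k').divisors.card : ℝ) ^ 2 := by
    exact_mod_cast h1
  refine h2.trans ?_
  have hdv : ∀ j : ℕ, 1 ≤ j → j ≤ a → ∀ t ∈ F, ((vk t j).divisors.card : ℝ) ≤
      D * (4 : ℝ) ^ (ε / 12) * (a : ℝ) ^ (ε / 4) := by
    intro j hj1 hja t ht
    obtain ⟨b1, b2⟩ := vk_bd a j t ha hj1 hja (hFN t ht)
    refine (hD _ b1).trans ?_
    have b3 : ((vk t j : ℕ) : ℝ) ≤ 4 * (a : ℝ) ^ (3 : ℝ) := by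
      have : ((vk t j : ℕ) : ℝ) ≤ ((4 * a ^ 3 : ℕ) : ℝ) := by exact_mod_cast b2
      rw [show (3 : ℝ) = ((3 : ℕ) : ℝ) by norm_num, Real.rpow_natCast]
      push_cast at this
      exact this
    have b4 : ((vk t j : ℕ) : ℝ) ^ (ε / 12) ≤ (4 : ℝ) ^ (ε / 12) * (a : ℝ) ^ (ε / 4) := by
      refine (Real.rpow_le_rpow (Nat.cast_nonneg _) b3 (by positivity)).trans (le_of_eq ?_)
      rw [Real.mul_rpow (by norm_num) (by positivity), ← Real.rpow_mul haR.le]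
      congr 2
      ring
    calc D * ((vk t j : ℕ) : ℝ) ^ (ε / 12) ≤ D * ((4 : ℝ) ^ (ε / 12) * (a : ℝ) ^ (ε / 4)) :=
          mul_le_mul_of_nonneg_left b4 (by linarith)
      _ = _ := by ring
  have hpt : ∀ t ∈ F, ((vk t k).divisors.card : ℝ) ^ 2 * ((vk t k').divisors.card : ℝ) ^ 2 ≤
      (D * (4 : ℝ) ^ (ε / 12)) ^ 4 * (a : ℝ) ^ ε := by
    intro t ht
    have c1 := hdv k hk1 hka t ht
    have c2 := hdv k' hk1' hka' t ht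
    have hpow : ((a : ℝ) ^ (ε / 4)) ^ 4 = (a : ℝ) ^ ε := by
      rw [← Real.rpow_natCast, ← Real.rpow_mul haR.le]
      congr 1
      push_cast
      ring
    calc ((vk t k).divisors.card : ℝ) ^ 2 * ((vk t k').divisors.card : ℝ) ^ 2
        ≤ (D * (4 : ℝ) ^ (ε / 12) * (a : ℝ) ^ (ε / 4)) ^ 2 *
          (D * (4 : ℝ) ^ (ε / 12) * (a : ℝ) ^ (ε / 4)) ^ 2 :=
          mul_le_mul (pow_le_pow_left₀ (Nat.cast_nonneg _) c1 2)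
            (pow_le_pow_left₀ (Nat.cast_nonneg _) c2 2) (by positivity) (by positivity)
      _ = (D * (4 : ℝ) ^ (ε / 12)) ^ 4 * ((a : ℝ) ^ (ε / 4)) ^ 4 := by ring
      _ = _ := by rw [hpow]
  refine (sum_le_card_nsmul _ _ _ hpt).trans ?_
  rw [nsmul_eq_mul]
  have hc := near_card a k η ha hka hη
  calc (F.card : ℝ) * ((D * (4 : ℝ) ^ (ε / 12)) ^ 4 * (a : ℝ) ^ ε)
      ≤ 11 * (η * (a : ℝ) ^ 2 + a) * ((D * (4 : ℝ) ^ (ε / 12)) ^ 4 * (a : ℝ) ^ ε) :=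
        mul_le_mul_of_nonneg_right hc (by positivity)
    _ = _ := by ring

end Pool.Agent.Helper79.KP
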