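import Pool.Agent.Helper93.KP.St
import Pool.Agent.Helper61.TW.M_BL

set_option autoImplicit false

noncomputable section

namespace Pool.Agent.Helper79.KP

open Finset Filter Topology Pool.Agent.Helper93.KP
open Pool.Agent.Helper15.AB (ee Kl StDB StMT)
open Pool.Agent.Helper61.TW (idx idx_spec idx_le idx_bd harm)

/-- end points of the geometric parts -/
private def lo (η : ℝ) (X i : ℕ) : ℕ := min ⌊(1 + η) ^ i / (1 + η)⌋₊ X

private theorem lo_zero (η : ℝ) (hη : 0 < η) (X : ℕ) : lo η X 0 = 0 := by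
  unfold lo
  have h : ⌊(1 + η) ^ 0 / (1 + η)⌋₊ = 0 := by
    rw [pow_zero]
    refine Nat.floor_eq_zero.2 ?_
    rw [div_lt_one (by linarith)]
    linarith
  rw [h]
  simp

private theorem pow_div (η : ℝ) (hη : 0 < η) (i : ℕ) : (1 + η) ^ (i + 1) / (1 + η) = (1 + η) ^ i := by
  have h : (1 : ℝ) + η ≠ 0 := by linarith
  rw [pow_succ]
  field_simp

private theorem lo_mono (η : ℝ) (hη : 0 < η) (X i : ℕ) : lo η X i ≤ lo η X (i + 1) := by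
  unfold lo
  refine min_le_min_right X (Nat.floor_mono ?_)
  rw [pow_div η hη]
  exact div_le_self (by positivity) (by linarith)

private theorem lo_succ (η : ℝ) (hη : 0 < η) (X i : ℕ) :
    (lo η X (i + 1) : ℝ) ≤ (1 + η) ^ i ∧ lo η X (i + 1) ≤ X := by
  unfold lo
  refine ⟨?_, min_le_right _ _⟩
  have h : ((min ⌊(1 + η) ^ (i + 1) / (1 + η)⌋₊ X : ℕ) : ℝ) ≤ (⌊(1 + η) ^ (i + 1) / (1 + η)⌋₊ : ℝ) := by
    exact_mod_cast min_le_left _ _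
  refine h.trans ?_
  rw [pow_div η hη]
  exact Nat.floor_le (by positivity)

private theorem lo_mem (η : ℝ) (hη : 0 < η) (X i m : ℕ) (hm : m ∈ Ioc (lo η X i) (lo η X (i + 1))) :
    (1 + η) ^ i / (1 + η) < (m : ℝ) ∧ (m : ℝ) ≤ (1 + η) * ((1 + η) ^ i / (1 + η)) := by
  rw [mem_Ioc] at hm
  obtain ⟨h1, h2⟩ := hm
  obtain ⟨h3, h4⟩ := lo_succ η hη X i
  have hmX : m ≤ X := h2.trans h4
  have e : (1 + η) * ((1 + η) ^ i / (1 + η)) = (1 + η) ^ i := by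
    have : (1 : ℝ) + η ≠ 0 := by linarith
    field_simp
  constructor
  · have h5 : ⌊(1 + η) ^ i / (1 + η)⌋₊ < m := by
      unfold lo at h1
      rcases min_lt_iff.1 h1 with h | h
      · exact h
      · omega
    exact (Nat.floor_lt (by positivity)).1 h5
  · rw [e]
    have : (m : ℝ) ≤ (lo η X (i + 1) : ℝ) := by exact_mod_cast h2
    exact this.trans h3

private theorem split_geo (η : ℝ) (hη : 0 < η) (X : ℕ) (hX : 1 ≤ X) (g : ℕ → ℝ) :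
    ∑ m ∈ Icc 1 X, g m = ∑ i ∈ range (idx η X + 1), ∑ m ∈ Ioc (lo η X i) (lo η X (i + 1)), g m := by
  have key : ∀ n : ℕ, ∑ m ∈ Ioc 0 (lo η X n), g m =
      ∑ i ∈ range n, ∑ m ∈ Ioc (lo η X i) (lo η X (i + 1)), g m := by
    intro n
    induction n with
    | zero => rw [lo_zero η hη]; simp
    | succ n ih =>
      rw [sum_range_succ, ← ih]
      exact (sum_Ioc_consecutive g (Nat.zero_le _) (lo_mono η hη X n)).symm
  have hlast : lo η X (idx η X + 1) = X := by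
    unfold lo
    rw [pow_div η hη]
    exact min_eq_right (Nat.le_floor (idx_spec η hη X hX).2)
  rw [← key, hlast]
  rfl

private theorem split_dy (X : ℕ) (g : ℕ → ℝ) :
    ∑ m ∈ Icc 1 X, g m = ∑ s ∈ range (Nat.log 2 X + 1), ∑ m ∈ Ioc (X / 2 ^ s / 2) (X / 2 ^ s), g m := by
  have key : ∀ n : ℕ, ∑ m ∈ Ioc (X / 2 ^ n) X, g m =
      ∑ s ∈ range n, ∑ m ∈ Ioc (X / 2 ^ s / 2) (X / 2 ^ s), g m := by
    intro n
    induction n with
    | zero => simp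
    | succ n ih =>
      have e : X / 2 ^ (n + 1) = X / 2 ^ n / 2 := by
        rw [pow_succ, Nat.div_div_eq_div_mul]
      rw [sum_range_succ, ← ih, e,
        ← sum_Ioc_consecutive g (Nat.div_le_self _ _) (Nat.div_le_self _ _)]
      exact add_comm _ _
  have hlast : X / 2 ^ (Nat.log 2 X + 1) = 0 :=
    Nat.div_eq_of_lt (Nat.lt_pow_succ_log_self (by norm_num) X)
  rw [← key, hlast]
  rfl

private theorem split4 (X Y J₁ J₂ L₁ L₂ : ℕ) (I I' K K' : ℕ → Finset ℕ)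
    (h1 : ∀ g : ℕ → ℝ, ∑ m ∈ Icc 1 X, g m = ∑ i ∈ range J₁, ∑ m ∈ I i, g m)
    (h2 : ∀ g : ℕ → ℝ, ∑ m ∈ Icc 1 Y, g m = ∑ i ∈ range J₂, ∑ m ∈ I' i, g m)
    (h3 : ∀ g : ℕ → ℝ, ∑ m ∈ Icc 1 X, g m = ∑ i ∈ range L₁, ∑ m ∈ K i, g m)
    (h4 : ∀ g : ℕ → ℝ, ∑ m ∈ Icc 1 Y, g m = ∑ i ∈ range L₂, ∑ m ∈ K' i, g m)
    (f : ℕ → ℕ → ℕ → ℕ → ℝ) :
    ∑ m ∈ Icc 1 X, ∑ n ∈ Icc 1 Y, ∑ x ∈ Icc 1 X, ∑ y ∈ Icc 1 Y, f m n x y =
      ∑ i ∈ range J₁, ∑ j ∈ range J₂, ∑ s ∈ range L₁, ∑ t ∈ range L₂,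
        ∑ m ∈ I i, ∑ n ∈ I' j, ∑ x ∈ K s, ∑ y ∈ K' t, f m n x y := by
  have e3 : ∀ m n, ∑ x ∈ Icc 1 X, ∑ y ∈ Icc 1 Y, f m n x y =
      ∑ s ∈ range L₁, ∑ t ∈ range L₂, ∑ x ∈ K s, ∑ y ∈ K' t, f m n x y := by
    intro m n
    rw [h3]
    refine sum_congr rfl fun s _ => ?_
    rw [sum_congr rfl fun x _ => h4 (fun y => f m n x y)]
    exact sum_comm
  have e2 : ∀ m, ∑ n ∈ Icc 1 Y, ∑ x ∈ Icc 1 X, ∑ y ∈ Icc 1 Y, f m n x y =
      ∑ j ∈ range J₂, ∑ s ∈ range L₁, ∑ t ∈ range L₂, ∑ n ∈ I' j, ∑ x ∈ K s, ∑ y ∈ K' t,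
        f m n x y := by
    intro m
    rw [h2]
    refine sum_congr rfl fun j _ => ?_
    rw [sum_congr rfl fun n _ => e3 m n, sum_comm]
    refine sum_congr rfl fun s _ => ?_
    exact sum_comm
  rw [h1]
  refine sum_congr rfl fun i _ => ?_
  rw [sum_congr rfl fun m _ => e2 m, sum_comm]
  refine sum_congr rfl fun j _ => ?_
  rw [sum_comm]
  refine sum_congr rfl fun s _ => ?_
  exact sum_comm

private theorem rp (A x y : ℝ) (hA : 1 ≤ A) (h : x ≤ y) : A ^ x ≤ A ^ y :=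
  Real.rpow_le_rpow_of_exponent_le hA h

private theorem part_num (A δ K K' D M μ₁ μ₂ U X V : ℝ) (hA : 1 ≤ A) (hδ : 0 < δ) (hδ1 : δ ≤ 1 / 100)
    (hK1 : 1 ≤ K) (hK : K ≤ A ^ (δ / 100)) (hK1' : 1 ≤ K') (hK' : K' ≤ A ^ (δ / 100))
    (hD1 : 1 ≤ D) (hD : D ≤ A ^ (δ / 100)) (hM0 : 0 ≤ M) (hM : M ≤ 4 * μ₁) (hμ₁ : 0 < μ₁)
    (hμX : μ₁ ≤ A ^ (1 - δ)) (hμ₂ : 0 < μ₂) (hU0 : 0 ≤ U) (hUμ : U ≤ 2 * μ₂)
    (hU : U ≤ A ^ (1 / 10 - δ)) (hX0 : 0 ≤ X) (hX : X ≤ A ^ (1 - δ)) (hV0 : 0 ≤ V)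
    (hV : V ≤ A ^ (1 / 10 - δ)) :
    (A ^ 2) ^ (δ / 100) * (K * D) * |(K' - K) * (K * K' - 1)| ^ (1 / 4 : ℝ) *
      (M * √(X * U * (4 * K * A ^ 2 / (μ₁ * μ₂))) +
        √M * X ^ (5 / 4 : ℝ) * (U * V ^ (3 / 2 : ℝ) + U ^ (3 / 4 : ℝ) * V ^ (7 / 4 : ℝ)) +
        M * X ^ (3 / 4 : ℝ) * (U * V + U ^ (3 / 4 : ℝ) * V ^ (5 / 4 : ℝ))) ≤ 24 * A ^ (2 - δ / 2) := by
  have hA0 : 0 < A := by linarith
  -- prefactor
  have p1 : (A ^ 2) ^ (δ / 100) = A ^ (δ / 50) := by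
    rw [← Real.rpow_natCast A 2, ← Real.rpow_mul hA0.le]
    congr 1
    push_cast
    ring
  have p2 : K * D ≤ A ^ (δ / 50) := by
    calc K * D ≤ A ^ (δ / 100) * A ^ (δ / 100) := mul_le_mul hK hD (by linarith) (by positivity)
      _ = A ^ (δ / 50) := by rw [← Real.rpow_add hA0]; congr 1; ring
  have p3 : |(K' - K) * (K * K' - 1)| ≤ A ^ (3 * δ / 100) := by
    rw [abs_mul]
    have q1 : |K' - K| ≤ A ^ (δ / 100) := by
      rw [abs_le]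
      constructor <;> linarith
    have q2 : |K * K' - 1| ≤ A ^ (δ / 50) := by
      have q3 : K * K' ≤ A ^ (δ / 50) := by
        calc K * K' ≤ A ^ (δ / 100) * A ^ (δ / 100) := mul_le_mul hK hK' (by linarith) (by positivity)
          _ = A ^ (δ / 50) := by rw [← Real.rpow_add hA0]; congr 1; ring
      have q4 : 1 ≤ K * K' := one_le_mul_of_one_le_of_one_le hK1 hK1'
      rw [abs_of_nonneg (by linarith)]
      linarith
    calc |K' - K| * |K * K' - 1| ≤ A ^ (δ / 100) * A ^ (δ / 50) :=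
          mul_le_mul q1 q2 (abs_nonneg _) (by positivity)
      _ = A ^ (3 * δ / 100) := by rw [← Real.rpow_add hA0]; congr 1; ring
  have p4 : |(K' - K) * (K * K' - 1)| ^ (1 / 4 : ℝ) ≤ A ^ (3 * δ / 400) := by
    calc |(K' - K) * (K * K' - 1)| ^ (1 / 4 : ℝ) ≤ (A ^ (3 * δ / 100)) ^ (1 / 4 : ℝ) :=
          Real.rpow_le_rpow (abs_nonneg _) p3 (by norm_num)
      _ = A ^ (3 * δ / 400) := by rw [← Real.rpow_mul hA0.le]; congr 1; ring
  have p5 : (A ^ 2) ^ (δ / 100) * (K * D) * |(K' - K) * (K * K' - 1)| ^ (1 / 4 : ℝ) ≤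
      A ^ (19 * δ / 400) := by
    calc (A ^ 2) ^ (δ / 100) * (K * D) * |(K' - K) * (K * K' - 1)| ^ (1 / 4 : ℝ)
        ≤ A ^ (δ / 50) * A ^ (δ / 50) * A ^ (3 * δ / 400) := by
          rw [p1]
          exact mul_le_mul (mul_le_mul_of_nonneg_left p2 (by positivity)) p4 (by positivity)
            (by positivity)
      _ = A ^ (19 * δ / 400) := by
          rw [← Real.rpow_add hA0, ← Real.rpow_add hA0]
          congr 1
          ring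
  have hMX : M ≤ 4 * A ^ (1 - δ) := by linarith
  -- first term
  have t1 : M * √(X * U * (4 * K * A ^ 2 / (μ₁ * μ₂))) ≤ 12 * A ^ (2 - δ + δ / 200) := by
    have z1 : X * U * (4 * K * A ^ 2 / (μ₁ * μ₂)) ≤
        A ^ (1 - δ) * (2 * μ₂) * (4 * A ^ (δ / 100) * A ^ 2 / (μ₁ * μ₂)) := by
      refine mul_le_mul (mul_le_mul hX hUμ hU0 (by positivity)) ?_ (by positivity) (by positivity)
      exact div_le_div_of_nonneg_right (by nlinarith [sq_nonneg A]) (by positivity)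
    have z2 : 0 ≤ X * U * (4 * K * A ^ 2 / (μ₁ * μ₂)) := by positivity
    have hsq : (M * √(X * U * (4 * K * A ^ 2 / (μ₁ * μ₂)))) ^ 2 ≤
        (12 * A ^ (2 - δ + δ / 200)) ^ 2 := by
      rw [mul_pow, Real.sq_sqrt z2]
      have e1 : (A ^ (2 - δ + δ / 200)) ^ 2 = A ^ (1 - δ) * A ^ (1 - δ) * A ^ (δ / 100) * A ^ 2 := by
        rw [← Real.rpow_natCast, ← Real.rpow_mul hA0.le, ← Real.rpow_natCast A 2,
          ← Real.rpow_add hA0, ← Real.rpow_add hA0, ← Real.rpow_add hA0]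
        congr 1
        push_cast
        ring
      calc M ^ 2 * (X * U * (4 * K * A ^ 2 / (μ₁ * μ₂)))
          ≤ (4 * μ₁) ^ 2 * (A ^ (1 - δ) * (2 * μ₂) * (4 * A ^ (δ / 100) * A ^ 2 / (μ₁ * μ₂))) :=
            mul_le_mul (pow_le_pow_left₀ hM0 hM 2) z1 z2 (by positivity)
        _ = 128 * (μ₁ * (A ^ (1 - δ) * A ^ (δ / 100) * A ^ 2)) := by
            field_simp
            ring
        _ ≤ 128 * (A ^ (1 - δ) * (A ^ (1 - δ) * A ^ (δ / 100) * A ^ 2)) := by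
            refine mul_le_mul_of_nonneg_left (mul_le_mul_of_nonneg_right hμX (by positivity))
              (by norm_num)
        _ ≤ 144 * (A ^ (1 - δ) * (A ^ (1 - δ) * A ^ (δ / 100) * A ^ 2)) :=
            mul_le_mul_of_nonneg_right (by norm_num) (by positivity)
        _ = (12 * A ^ (2 - δ + δ / 200)) ^ 2 := by
            rw [mul_pow, e1]
            ring
    exact le_of_sq_le_sq hsq (by positivity)
  -- second term
  have t2 : √M * X ^ (5 / 4 : ℝ) * (U * V ^ (3 / 2 : ℝ) + U ^ (3 / 4 : ℝ) * V ^ (7 / 4 : ℝ)) ≤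
      4 * A ^ (2 - δ + δ / 200) := by
    have z1 : √M ≤ 2 * A ^ ((1 - δ) / 2) := by
      have e1 : √(4 * A ^ (1 - δ)) = 2 * A ^ ((1 - δ) / 2) := by
        rw [Real.sqrt_mul (by norm_num), show (4 : ℝ) = 2 ^ 2 by norm_num,
          Real.sqrt_sq (by norm_num), Real.sqrt_eq_rpow, ← Real.rpow_mul hA0.le]
        congr 2
        ring
      rw [← e1]
      exact Real.sqrt_le_sqrt hMX
    have z2 : X ^ (5 / 4 : ℝ) ≤ A ^ ((1 - δ) * (5 / 4)) := by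
      rw [Real.rpow_mul hA0.le]
      exact Real.rpow_le_rpow hX0 hX (by norm_num)
    have hVp : ∀ e : ℝ, 0 ≤ e → V ^ e ≤ A ^ ((1 / 10 - δ) * e) := by
      intro e he
      rw [Real.rpow_mul hA0.le]
      exact Real.rpow_le_rpow hV0 hV he
    have hUp : U ^ (3 / 4 : ℝ) ≤ A ^ ((1 / 10 - δ) * (3 / 4)) := by
      rw [Real.rpow_mul hA0.le]
      exact Real.rpow_le_rpow hU0 hU (by norm_num)
    have z3 : U * V ^ (3 / 2 : ℝ) + U ^ (3 / 4 : ℝ) * V ^ (7 / 4 : ℝ) ≤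
        2 * A ^ ((1 / 10 - δ) * (5 / 2)) := by
      have y1 : U * V ^ (3 / 2 : ℝ) ≤ A ^ ((1 / 10 - δ) * (5 / 2)) := by
        calc U * V ^ (3 / 2 : ℝ) ≤ A ^ (1 / 10 - δ) * A ^ ((1 / 10 - δ) * (3 / 2)) :=
              mul_le_mul hU (hVp _ (by norm_num)) (by positivity) (by positivity)
          _ = _ := by rw [← Real.rpow_add hA0]; congr 1; ring
      have y2 : U ^ (3 / 4 : ℝ) * V ^ (7 / 4 : ℝ) ≤ A ^ ((1 / 10 - δ) * (5 / 2)) := by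
        calc U ^ (3 / 4 : ℝ) * V ^ (7 / 4 : ℝ) ≤
              A ^ ((1 / 10 - δ) * (3 / 4)) * A ^ ((1 / 10 - δ) * (7 / 4)) :=
              mul_le_mul hUp (hVp _ (by norm_num)) (by positivity) (by positivity)
          _ = _ := by rw [← Real.rpow_add hA0]; congr 1; ring
      linarith
    calc √M * X ^ (5 / 4 : ℝ) * (U * V ^ (3 / 2 : ℝ) + U ^ (3 / 4 : ℝ) * V ^ (7 / 4 : ℝ))
        ≤ 2 * A ^ ((1 - δ) / 2) * A ^ ((1 - δ) * (5 / 4)) * (2 * A ^ ((1 / 10 - δ) * (5 / 2))) :=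
          mul_le_mul (mul_le_mul z1 z2 (by positivity) (by positivity)) z3 (by positivity)
            (by positivity)
      _ = 4 * (A ^ ((1 - δ) / 2) * A ^ ((1 - δ) * (5 / 4)) * A ^ ((1 / 10 - δ) * (5 / 2))) := by ring
      _ ≤ 4 * A ^ (2 - δ + δ / 200) := by
          rw [← Real.rpow_add hA0, ← Real.rpow_add hA0]
          exact mul_le_mul_of_nonneg_left (rp A _ _ hA (by linarith)) (by norm_num)
  -- third term
  have t3 : M * X ^ (3 / 4 : ℝ) * (U * V + U ^ (3 / 4 : ℝ) * V ^ (5 / 4 : ℝ)) ≤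
      8 * A ^ (2 - δ + δ / 200) := by
    have z2 : X ^ (3 / 4 : ℝ) ≤ A ^ ((1 - δ) * (3 / 4)) := by
      rw [Real.rpow_mul hA0.le]
      exact Real.rpow_le_rpow hX0 hX (by norm_num)
    have hVp : V ^ (5 / 4 : ℝ) ≤ A ^ ((1 / 10 - δ) * (5 / 4)) := by
      rw [Real.rpow_mul hA0.le]
      exact Real.rpow_le_rpow hV0 hV (by norm_num)
    have hUp : U ^ (3 / 4 : ℝ) ≤ A ^ ((1 / 10 - δ) * (3 / 4)) := by
      rw [Real.rpow_mul hA0.le]
      exact Real.rpow_le_rpow hU0 hU (by norm_num)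
    have z3 : U * V + U ^ (3 / 4 : ℝ) * V ^ (5 / 4 : ℝ) ≤ 2 * A ^ ((1 / 10 - δ) * 2) := by
      have y1 : U * V ≤ A ^ ((1 / 10 - δ) * 2) := by
        calc U * V ≤ A ^ (1 / 10 - δ) * A ^ (1 / 10 - δ) :=
              mul_le_mul hU hV hV0 (by positivity)
          _ = _ := by rw [← Real.rpow_add hA0]; congr 1; ring
      have y2 : U ^ (3 / 4 : ℝ) * V ^ (5 / 4 : ℝ) ≤ A ^ ((1 / 10 - δ) * 2) := by
        calc U ^ (3 / 4 : ℝ) * V ^ (5 / 4 : ℝ) ≤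
              A ^ ((1 / 10 - δ) * (3 / 4)) * A ^ ((1 / 10 - δ) * (5 / 4)) :=
              mul_le_mul hUp hVp (by positivity) (by positivity)
          _ = _ := by rw [← Real.rpow_add hA0]; congr 1; ring
      linarith
    calc M * X ^ (3 / 4 : ℝ) * (U * V + U ^ (3 / 4 : ℝ) * V ^ (5 / 4 : ℝ))
        ≤ 4 * A ^ (1 - δ) * A ^ ((1 - δ) * (3 / 4)) * (2 * A ^ ((1 / 10 - δ) * 2)) :=
          mul_le_mul (mul_le_mul hMX z2 (by positivity) (by positivity)) z3 (by positivity)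
            (by positivity)
      _ = 8 * (A ^ (1 - δ) * A ^ ((1 - δ) * (3 / 4)) * A ^ ((1 / 10 - δ) * 2)) := by ring
      _ ≤ 8 * A ^ (2 - δ + δ / 200) := by
          rw [← Real.rpow_add hA0, ← Real.rpow_add hA0]
          exact mul_le_mul_of_nonneg_left (rp A _ _ hA (by linarith)) (by norm_num)
  calc (A ^ 2) ^ (δ / 100) * (K * D) * |(K' - K) * (K * K' - 1)| ^ (1 / 4 : ℝ) * _
      ≤ A ^ (19 * δ / 400) * (24 * A ^ (2 - δ + δ / 200)) := by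
        refine mul_le_mul p5 (by linarith) (by positivity) (by positivity)
    _ = 24 * (A ^ (19 * δ / 400) * A ^ (2 - δ + δ / 200)) := by ring
    _ ≤ 24 * A ^ (2 - δ / 2) := by
        rw [← Real.rpow_add hA0]
        exact mul_le_mul_of_nonneg_left (rp A _ _ hA (by linarith)) (by norm_num)

private theorem mid_num (η A k d μ₁ μ₂ m n x y : ℝ) (hη : 0 < η) (hη1 : η ≤ 1 / 10) (hk : 1 ≤ k)
    (hd : 1 ≤ d) (hμ₁ : 0 < μ₁) (hμ₂ : 0 < μ₂) (hm : 0 < m) (hmμ : m ≤ (1 + η) * μ₁) (hn : 0 < n)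
    (hnμ : n ≤ (1 + η) * μ₂) (hx : 0 < x) (hy : 0 < y) :
    (8 * η * k * A ^ 2 / (μ₁ * μ₂) + (k ^ 2 + 1) / (μ₁ * μ₂) + 1) / (k * d * (x * y)) ≤
      (10 * η * A ^ 2 + 3 * k) * ((1 / m) * (1 / n) * ((1 / x) * (1 / y))) + (1 / x) * (1 / y) := by
  have hk0 : 0 < k := by linarith
  have hd0 : 0 < d := by linarith
  set q : ℝ := (1 / m) * (1 / n) with hq
  have hq0 : 0 < q := by positivity
  have h1 : 1 / (μ₁ * μ₂) ≤ 121 / 100 * q := by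
    have e1 : m * n ≤ 121 / 100 * (μ₁ * μ₂) := by
      calc m * n ≤ ((1 + η) * μ₁) * ((1 + η) * μ₂) := mul_le_mul hmμ hnμ hn.le (by positivity)
        _ = (1 + η) ^ 2 * (μ₁ * μ₂) := by ring
        _ ≤ 121 / 100 * (μ₁ * μ₂) := by
            refine mul_le_mul_of_nonneg_right ?_ (by positivity)
            nlinarith
    rw [hq, div_le_iff₀ (by positivity)]
    have e2 : 121 / 100 * (1 / m * (1 / n)) * (μ₁ * μ₂) = (121 / 100 * (μ₁ * μ₂)) / (m * n) := by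
      field_simp
    rw [e2, le_div_iff₀ (by positivity), one_mul]
    exact e1
  have h2 : (8 * η * k * A ^ 2 / (μ₁ * μ₂) + (k ^ 2 + 1) / (μ₁ * μ₂) + 1) / (k * d) ≤
      (10 * η * A ^ 2 + 3 * k) * q + 1 := by
    rw [div_le_iff₀ (by positivity)]
    have e1 : 8 * η * k * A ^ 2 / (μ₁ * μ₂) + (k ^ 2 + 1) / (μ₁ * μ₂) + 1 =
        (8 * η * k * A ^ 2 + (k ^ 2 + 1)) * (1 / (μ₁ * μ₂)) + 1 := by ring
    rw [e1]
    have e2 : (8 * η * k * A ^ 2 + (k ^ 2 + 1)) * (1 / (μ₁ * μ₂)) ≤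
        (8 * η * k * A ^ 2 + (k ^ 2 + 1)) * (121 / 100 * q) :=
      mul_le_mul_of_nonneg_left h1 (by positivity)
    have e3 : (8 * η * k * A ^ 2 + (k ^ 2 + 1)) * (121 / 100 * q) + 1 ≤
        ((10 * η * A ^ 2 + 3 * k) * q + 1) * k := by
      have f1 : (8 * η * k * A ^ 2 + (k ^ 2 + 1)) * (121 / 100) ≤ (10 * η * A ^ 2 + 3 * k) * k := by
        have g1 : 0 ≤ η * k * A ^ 2 := by positivity
        have g2 : 1 ≤ k ^ 2 := by nlinarith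
        nlinarith
      have f2 := mul_le_mul_of_nonneg_right f1 hq0.le
      nlinarith
    have e4 : ((10 * η * A ^ 2 + 3 * k) * q + 1) * k ≤ ((10 * η * A ^ 2 + 3 * k) * q + 1) * (k * d) := by
      refine mul_le_mul_of_nonneg_left ?_ (by positivity)
      nlinarith
    linarith
  have h3 : (8 * η * k * A ^ 2 / (μ₁ * μ₂) + (k ^ 2 + 1) / (μ₁ * μ₂) + 1) / (k * d * (x * y)) =
      (8 * η * k * A ^ 2 / (μ₁ * μ₂) + (k ^ 2 + 1) / (μ₁ * μ₂) + 1) / (k * d) *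
        ((1 / x) * (1 / y)) := by
    field_simp
  rw [h3]
  calc _ ≤ ((10 * η * A ^ 2 + 3 * k) * q + 1) * ((1 / x) * (1 / y)) :=
        mul_le_mul_of_nonneg_right h2 (by positivity)
    _ = _ := by ring

private theorem card_dy (X a : ℕ) (hX : 1 ≤ X) (hXa : X ≤ a) :
    ((Nat.log 2 X + 1 : ℕ) : ℝ) ≤ 2 * Real.log a + 1 := by
  have h1 : ((2 ^ Nat.log 2 X : ℕ) : ℝ) ≤ X := by
    exact_mod_cast Nat.pow_log_le_self 2 (by omega)
  have hX0 : (0 : ℝ) < X := by exact_mod_cast hX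
  have h2 : (Nat.log 2 X : ℝ) * Real.log 2 ≤ Real.log a := by
    rw [← Real.log_pow]
    refine Real.log_le_log (by positivity) ?_
    have : (X : ℝ) ≤ a := by exact_mod_cast hXa
    push_cast at h1
    linarith
  have h3 := Real.log_two_gt_d9
  push_cast
  nlinarith [(Nat.cast_nonneg (Nat.log 2 X) : (0 : ℝ) ≤ (Nat.log 2 X : ℝ))]

theorem hBLV (hA : StBLA) (hL : StBLE) : StBLV := by
  intro δ hδ hδ1
  obtain ⟨C₁, hC₁, hA⟩ := hA (δ / 100) (by positivity)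
  obtain ⟨C₂, hC₂, hL⟩ := hL (δ / 100) (by positivity)
  refine ⟨2 * C₂ + 4 * (1 + 100 / δ) ^ 4 + (1 + 100 / δ) ^ 2 +
    (2000 / δ + 2) ^ 2 * (200 / δ + 1) ^ 2 * (C₁ * 24), by positivity, ?_⟩
  intro a d ν k k' al be al' be' ha hd hν hk1 hk1' hkk hk hk' hda hal hbe hal' hbe'
  have ha2 : 2 ≤ a := by
    by_contra h
    have ha1 : a = 1 := by omega
    subst ha1
    rw [Nat.cast_one, Real.one_rpow] at hk hk'
    have h1 : k ≤ 1 := by exact_mod_cast hk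
    have h2 : k' ≤ 1 := by exact_mod_cast hk'
    omega
  have hA1 : (1 : ℝ) ≤ a := by exact_mod_cast ha
  have hA0 : (0 : ℝ) < a := by linarith
  have hmono : ∀ x y : ℝ, x ≤ y → (a : ℝ) ^ x ≤ (a : ℝ) ^ y := fun x y h => rp _ _ _ hA1 h
  have hone : ∀ x : ℝ, 0 ≤ x → 1 ≤ (a : ℝ) ^ x := fun x h => Real.one_le_rpow hA1 h
  have hle1 : ∀ x : ℝ, x ≤ 1 → (a : ℝ) ^ x ≤ a := by
    intro x hx
    have := hmono x 1 hx
    rwa [Real.rpow_one] at this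
  have hk1R : (1 : ℝ) ≤ k := by exact_mod_cast hk1
  have hk1R' : (1 : ℝ) ≤ k' := by exact_mod_cast hk1'
  have hd1R : (1 : ℝ) ≤ d := by exact_mod_cast hd
  have hka : k ≤ a := by exact_mod_cast hk.trans (hle1 _ (by linarith))
  have hka' : k' ≤ a := by exact_mod_cast hk'.trans (hle1 _ (by linarith))
  set η : ℝ := (a : ℝ) ^ (-(δ / 10)) / 10 with hη
  have hη0 : 0 < η := by positivity
  have hη1 : η ≤ 1 / 10 := by
    have h1 := hmono (-(δ / 10)) 0 (by linarith)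
    rw [Real.rpow_zero] at h1
    rw [hη]
    linarith
  have hηa : η * (a : ℝ) ^ 2 = (a : ℝ) ^ (2 - δ / 10) / 10 := by
    rw [hη, ← Real.rpow_natCast, sub_eq_add_neg, Real.rpow_add hA0]
    push_cast
    ring
  set X := ⌊(a : ℝ) ^ (1 - δ)⌋₊ with hXdef
  set Y := ⌊(a : ℝ) ^ (1 / 10 - δ)⌋₊ with hYdef
  have hX1 : 1 ≤ X := Nat.le_floor (by rw [Nat.cast_one]; exact hone _ (by linarith))
  have hY1 : 1 ≤ Y := Nat.le_floor (by rw [Nat.cast_one]; exact hone _ (by linarith))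
  have hXA : (X : ℝ) ≤ (a : ℝ) ^ (1 - δ) := Nat.floor_le (by positivity)
  have hYA : (Y : ℝ) ≤ (a : ℝ) ^ (1 / 10 - δ) := Nat.floor_le (by positivity)
  have hXa : X ≤ a := by exact_mod_cast hXA.trans (hle1 _ (by linarith))
  have hYa : Y ≤ a := by exact_mod_cast hYA.trans (hle1 _ (by linarith))
  -- the parts
  set G : ℕ → ℕ → ℕ → ℕ → ℝ := fun m n x y =>
    (((NN a).filter (fun t : ℕ => ((t : ℝ) ≤ (a : ℝ) ^ 2 + 3 * η * a ^ 2 + k + 1 ∨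
      4 * (a : ℝ) ^ 2 - 8 * η * a ^ 2 ≤ t) ∧ (m * n) ∣ vk t k ∧ (x * y) ∣ vk t k')).card : ℝ) +
    ((10 * η * (a : ℝ) ^ 2 + 3 * k) * ((1 / (m : ℝ)) * (1 / (n : ℝ)) * ((1 / (x : ℝ)) * (1 / (y : ℝ)))) +
      (1 / (x : ℝ)) * (1 / (y : ℝ))) with hG
  have hpart : ∀ i ∈ range (idx η X + 1), ∀ j ∈ range (idx η Y + 1),
      ∀ s ∈ range (Nat.log 2 X + 1), ∀ t ∈ range (Nat.log 2 Y + 1),
      |∑ m ∈ Ioc (lo η X i) (lo η X (i + 1)), ∑ n ∈ Ioc (lo η Y j) (lo η Y (j + 1)),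
        ∑ x ∈ Ioc (X / 2 ^ s / 2) (X / 2 ^ s), ∑ y ∈ Ioc (Y / 2 ^ t / 2) (Y / 2 ^ t),
        cd (k * d) k' m n x y * (al m * be n * al' x * be' y) *
          ((cn a d ν k k' (m * n) (x * y) : ℝ) - 3 * (a : ℝ) ^ 2 / (d * (m * n : ℕ) * (x * y : ℕ)))| ≤
      (∑ m ∈ Ioc (lo η X i) (lo η X (i + 1)), ∑ n ∈ Ioc (lo η Y j) (lo η Y (j + 1)),
        ∑ x ∈ Ioc (X / 2 ^ s / 2) (X / 2 ^ s), ∑ y ∈ Ioc (Y / 2 ^ t / 2) (Y / 2 ^ t), G m n x y) +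
      C₁ * (24 * (a : ℝ) ^ (2 - δ / 2)) := by
    intro i hi j hj s hs t ht
    rw [mem_range] at hi hj hs ht
    have hη2 : (0 : ℝ) < 1 + η := by linarith
    have hμ₁ : 0 < (1 + η) ^ i / (1 + η) := by positivity
    have hμ₂ : 0 < (1 + η) ^ j / (1 + η) := by positivity
    have hμle : ∀ i : ℕ, (1 : ℝ) ≤ (1 + η) * ((1 + η) ^ i / (1 + η)) := by
      intro i
      have e : (1 + η) * ((1 + η) ^ i / (1 + η)) = (1 + η) ^ i := by field_simp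
      rw [e]
      exact one_le_pow₀ (by linarith)
    obtain ⟨u1, u2⟩ := lo_succ η hη0 X i
    obtain ⟨v1, v2⟩ := lo_succ η hη0 Y j
    have hx1 : 1 ≤ X / 2 ^ s := Nat.div_pos
      (Nat.pow_le_of_le_log (by omega) (by omega)) (by positivity)
    have hy1 : 1 ≤ Y / 2 ^ t := Nat.div_pos
      (Nat.pow_le_of_le_log (by omega) (by omega)) (by positivity)
    have hxX : ((X / 2 ^ s : ℕ) : ℝ) ≤ (a : ℝ) ^ (1 - δ) := by
      have : ((X / 2 ^ s : ℕ) : ℝ) ≤ X := by exact_mod_cast Nat.div_le_self _ _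
      exact this.trans hXA
    have hyY : ((Y / 2 ^ t : ℕ) : ℝ) ≤ (a : ℝ) ^ (1 / 10 - δ) := by
      have : ((Y / 2 ^ t : ℕ) : ℝ) ≤ Y := by exact_mod_cast Nat.div_le_self _ _
      exact this.trans hYA
    have hU1 : 1 ≤ lo η Y (j + 1) := by
      unfold lo
      rw [pow_div η hη0]
      refine le_min (Nat.le_floor ?_) hY1
      rw [Nat.cast_one]
      exact one_le_pow₀ (by linarith)
    have hW1 : (1 : ℝ) ≤ (a : ℝ) ^ 2 := one_le_pow₀ hA1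
    have haW : (a : ℝ) ≤ (a : ℝ) ^ 2 := by nlinarith
    have hM2W : ((lo η X (i + 1) : ℕ) : ℝ) ≤ (a : ℝ) ^ 2 := by
      have : ((lo η X (i + 1) : ℕ) : ℝ) ≤ a := by exact_mod_cast u2.trans hXa
      exact this.trans haW
    have hU2W : ((lo η Y (j + 1) : ℕ) : ℝ) ≤ (a : ℝ) ^ 2 := by
      have : ((lo η Y (j + 1) : ℕ) : ℝ) ≤ a := by exact_mod_cast v2.trans hYa
      exact this.trans haW
    have hkdW : ((k * d : ℕ) : ℝ) * ((X / 2 ^ s : ℕ) : ℝ) * ((Y / 2 ^ t : ℕ) : ℝ) ≤ (a : ℝ) ^ 2 := by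
      push_cast
      have e1 : (k : ℝ) * d ≤ (a : ℝ) ^ (δ / 100) * (a : ℝ) ^ (δ / 100) :=
        mul_le_mul hk hda (by linarith) (by positivity)
      have e2 : (k : ℝ) * d * ((X / 2 ^ s : ℕ) : ℝ) * ((Y / 2 ^ t : ℕ) : ℝ) ≤
          (a : ℝ) ^ (δ / 100) * (a : ℝ) ^ (δ / 100) * (a : ℝ) ^ (1 - δ) * (a : ℝ) ^ (1 / 10 - δ) :=
        mul_le_mul (mul_le_mul e1 hxX (Nat.cast_nonneg _) (by positivity)) hyY
          (Nat.cast_nonneg _) (by positivity)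
      refine e2.trans ?_
      rw [← Real.rpow_add hA0, ← Real.rpow_add hA0, ← Real.rpow_add hA0, ← Real.rpow_natCast]
      apply hmono
      push_cast
      linarith
    have hbox := hA a d ν k k' (lo η X i) (lo η X (i + 1)) (lo η Y j) (lo η Y (j + 1)) (X / 2 ^ s)
      (Y / 2 ^ t) η ((1 + η) ^ i / (1 + η)) ((1 + η) ^ j / (1 + η)) ((a : ℝ) ^ 2) al be al' be' ha2
      hd hν hk1 hka hk1' hka' hkk hη0 hη1 hμ₁ hμ₂ (lo_mono η hη0 X i) hU1 hx1 hy1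
      (fun m hm => lo_mem η hη0 X i m hm) (fun n hn => lo_mem η hη0 Y j n hn) hW1 hM2W hkdW hU2W
      hal hbe hal' hbe'
    refine hbox.trans (add_le_add ?_ ?_)
    · refine sum_le_sum fun m hm => sum_le_sum fun n hn => sum_le_sum fun x hx =>
        sum_le_sum fun y hy => ?_
      rw [hG]
      refine add_le_add le_rfl ?_
      obtain ⟨a1, a2⟩ := lo_mem η hη0 X i m hm
      obtain ⟨b1, b2⟩ := lo_mem η hη0 Y j n hn
      have hx0 : (0 : ℝ) < x := by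
        have := (mem_Ioc.1 hx).1
        have : 0 < x := by omega
        exact_mod_cast this
      have hy0 : (0 : ℝ) < y := by
        have := (mem_Ioc.1 hy).1
        have : 0 < y := by omega
        exact_mod_cast this
      have := mid_num η a k d _ _ m n x y hη0 hη1 hk1R hd1R hμ₁ hμ₂ (hμ₁.trans a1) a2
        (hμ₂.trans b1) b2 hx0 hy0
      push_cast
      exact this
    · have hlo0 : (0 : ℝ) ≤ (lo η X i : ℝ) := Nat.cast_nonneg _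
      have hlo1 : (lo η X i : ℝ) ≤ (lo η X (i + 1) : ℝ) := by exact_mod_cast lo_mono η hη0 X i
      have e1 : (1 + η) * ((1 + η) ^ i / (1 + η)) = (1 + η) ^ i := by field_simp
      have e2 : (1 + η) * ((1 + η) ^ j / (1 + η)) = (1 + η) ^ j := by field_simp
      have hM : (lo η X (i + 1) : ℝ) - lo η X i + 1 ≤ 4 * ((1 + η) ^ i / (1 + η)) := by
        have h1 := hμle i
        rw [← e1] at u1
        nlinarith
      have hμX : (1 + η) ^ i / (1 + η) ≤ (a : ℝ) ^ (1 - δ) := by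
        have h1 := (idx_spec η hη0 X hX1).1
        have h2 : (1 + η) ^ i / (1 + η) ≤ (1 + η) ^ (idx η X) / (1 + η) := by
          refine div_le_div_of_nonneg_right ?_ hη2.le
          exact pow_le_pow_right₀ (by linarith) (by omega)
        linarith
      have hUμ : (lo η Y (j + 1) : ℝ) ≤ 2 * ((1 + η) ^ j / (1 + η)) := by
        rw [← e2] at v1
        nlinarith
      have hUY : (lo η Y (j + 1) : ℝ) ≤ (a : ℝ) ^ (1 / 10 - δ) := by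
        have : (lo η Y (j + 1) : ℝ) ≤ Y := by exact_mod_cast v2
        exact this.trans hYA
      have hnum := part_num (a : ℝ) δ k k' d ((lo η X (i + 1) : ℝ) - lo η X i + 1)
        ((1 + η) ^ i / (1 + η)) ((1 + η) ^ j / (1 + η)) (lo η Y (j + 1)) (X / 2 ^ s : ℕ)
        (Y / 2 ^ t : ℕ) hA1 hδ hδ1 hk1R hk hk1R' hk' hd1R hda (by linarith) hM hμ₁ hμX hμ₂
        (Nat.cast_nonneg _) hUμ hUY (Nat.cast_nonneg _) hxX (Nat.cast_nonneg _) hyY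
      have h3 := mul_le_mul_of_nonneg_left hnum hC₁.le
      refine le_trans (le_of_eq ?_) h3
      push_cast
      ring
  -- sum over the parts
  have hsum : |∑ m ∈ Icc 1 X, ∑ n ∈ Icc 1 Y, ∑ x ∈ Icc 1 X, ∑ y ∈ Icc 1 Y,
      cd (k * d) k' m n x y * (al m * be n * al' x * be' y) *
        ((cn a d ν k k' (m * n) (x * y) : ℝ) - 3 * (a : ℝ) ^ 2 / (d * (m * n : ℕ) * (x * y : ℕ)))| ≤
      (∑ m ∈ Icc 1 X, ∑ n ∈ Icc 1 Y, ∑ x ∈ Icc 1 X, ∑ y ∈ Icc 1 Y, G m n x y) +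
      ((idx η X + 1 : ℕ) : ℝ) * (idx η Y + 1 : ℕ) * (((Nat.log 2 X + 1 : ℕ) : ℝ) *
        (Nat.log 2 Y + 1 : ℕ)) * (C₁ * (24 * (a : ℝ) ^ (2 - δ / 2))) := by
    rw [split4 X Y (idx η X + 1) (idx η Y + 1) (Nat.log 2 X + 1) (Nat.log 2 Y + 1)
      (fun i => Ioc (lo η X i) (lo η X (i + 1))) (fun j => Ioc (lo η Y j) (lo η Y (j + 1)))
      (fun s => Ioc (X / 2 ^ s / 2) (X / 2 ^ s)) (fun t => Ioc (Y / 2 ^ t / 2) (Y / 2 ^ t))
      (split_geo η hη0 X hX1) (split_geo η hη0 Y hY1) (split_dy X) (split_dy Y) G,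
      split4 X Y (idx η X + 1) (idx η Y + 1) (Nat.log 2 X + 1) (Nat.log 2 Y + 1)
      (fun i => Ioc (lo η X i) (lo η X (i + 1))) (fun j => Ioc (lo η Y j) (lo η Y (j + 1)))
      (fun s => Ioc (X / 2 ^ s / 2) (X / 2 ^ s)) (fun t => Ioc (Y / 2 ^ t / 2) (Y / 2 ^ t))
      (split_geo η hη0 X hX1) (split_geo η hη0 Y hY1) (split_dy X) (split_dy Y)]
    have e1 : ((idx η X + 1 : ℕ) : ℝ) * (idx η Y + 1 : ℕ) * (((Nat.log 2 X + 1 : ℕ) : ℝ) *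
        (Nat.log 2 Y + 1 : ℕ)) * (C₁ * (24 * (a : ℝ) ^ (2 - δ / 2))) =
        ∑ i ∈ range (idx η X + 1), ∑ j ∈ range (idx η Y + 1), ∑ s ∈ range (Nat.log 2 X + 1),
          ∑ t ∈ range (Nat.log 2 Y + 1), (C₁ * (24 * (a : ℝ) ^ (2 - δ / 2))) := by
      rw [sum_const, sum_const, sum_const, sum_const, card_range, card_range, card_range,
        card_range, nsmul_eq_mul, nsmul_eq_mul, nsmul_eq_mul, nsmul_eq_mul]
      ring
    rw [e1, ← sum_add_distrib]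
    refine (abs_sum_le_sum_abs _ _).trans (sum_le_sum fun i hi => ?_)
    rw [← sum_add_distrib]
    refine (abs_sum_le_sum_abs _ _).trans (sum_le_sum fun j hj => ?_)
    rw [← sum_add_distrib]
    refine (abs_sum_le_sum_abs _ _).trans (sum_le_sum fun s hs => ?_)
    rw [← sum_add_distrib]
    refine (abs_sum_le_sum_abs _ _).trans (sum_le_sum fun t ht => ?_)
    exact hpart i hi j hj s hs t ht
  refine hsum.trans ?_
  -- logarithms
  have hlog0 : 0 ≤ Real.log a := Real.log_nonneg hA1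
  have hlog : Real.log a ≤ 100 / δ * (a : ℝ) ^ (δ / 100) := by
    have h := Real.log_le_rpow_div (x := (a : ℝ)) (ε := δ / 100) hA0.le (by positivity)
    have e1 : (a : ℝ) ^ (δ / 100) / (δ / 100) = 100 / δ * (a : ℝ) ^ (δ / 100) := by
      field_simp
    rwa [e1] at h
  have hl1 : 1 + Real.log a ≤ (1 + 100 / δ) * (a : ℝ) ^ (δ / 100) := by
    have := hone (δ / 100) (by positivity)
    linarith
  -- numbers of parts
  have hJ : ∀ Z : ℕ, 1 ≤ Z → Z ≤ a →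
      ((idx η Z + 1 : ℕ) : ℝ) ≤ (2000 / δ + 2) * (a : ℝ) ^ (11 / 100 * δ) := by
    intro Z hZ1 hZ
    have h0 : ((idx η Z + 1 : ℕ) : ℝ) ≤ (idx η a : ℝ) + 1 := by
      have := idx_le η hη0 a Z hZ1 hZ
      push_cast
      have : (idx η Z : ℝ) ≤ idx η a := by exact_mod_cast this
      linarith
    have h := idx_bd η hη0 (by linarith) a ha
    have e1 : 2 * Real.log a / η = 20 * (a : ℝ) ^ (δ / 10) * Real.log a := by
      rw [hη, Real.rpow_neg hA0.le]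
      field_simp
      ring
    rw [e1] at h
    have h2 : 20 * (a : ℝ) ^ (δ / 10) * Real.log a ≤
        20 * (a : ℝ) ^ (δ / 10) * (100 / δ * (a : ℝ) ^ (δ / 100)) :=
      mul_le_mul_of_nonneg_left hlog (by positivity)
    have e2 : 20 * (a : ℝ) ^ (δ / 10) * (100 / δ * (a : ℝ) ^ (δ / 100)) =
        2000 / δ * (a : ℝ) ^ (11 / 100 * δ) := by
      have : (a : ℝ) ^ (11 / 100 * δ) = (a : ℝ) ^ (δ / 10) * (a : ℝ) ^ (δ / 100) := by
        rw [← Real.rpow_add hA0]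
        congr 1
        ring
      rw [this]
      ring
    have h3 := hone (11 / 100 * δ) (by positivity)
    calc ((idx η Z + 1 : ℕ) : ℝ) ≤ 2000 / δ * (a : ℝ) ^ (11 / 100 * δ) + 2 := by linarith
      _ ≤ 2000 / δ * (a : ℝ) ^ (11 / 100 * δ) + 2 * (a : ℝ) ^ (11 / 100 * δ) := by linarith
      _ = _ := by ring
  have hLg : ∀ Z : ℕ, 1 ≤ Z → Z ≤ a →
      ((Nat.log 2 Z + 1 : ℕ) : ℝ) ≤ (200 / δ + 1) * (a : ℝ) ^ (δ / 100) := by
    intro Z hZ1 hZ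
    have h1 := card_dy Z a hZ1 hZ
    have h2 := hone (δ / 100) (by positivity)
    calc ((Nat.log 2 Z + 1 : ℕ) : ℝ) ≤ 2 * Real.log a + 1 := h1
      _ ≤ 2 * (100 / δ * (a : ℝ) ^ (δ / 100)) + 1 * (a : ℝ) ^ (δ / 100) := by linarith
      _ = _ := by ring
  have hparts : ((idx η X + 1 : ℕ) : ℝ) * (idx η Y + 1 : ℕ) * (((Nat.log 2 X + 1 : ℕ) : ℝ) *
        (Nat.log 2 Y + 1 : ℕ)) * (C₁ * (24 * (a : ℝ) ^ (2 - δ / 2))) ≤
      (2000 / δ + 2) ^ 2 * (200 / δ + 1) ^ 2 * (C₁ * 24) * (a : ℝ) ^ (2 - δ / 20) := by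
    have h1 : ((idx η X + 1 : ℕ) : ℝ) * (idx η Y + 1 : ℕ) ≤
        ((2000 / δ + 2) * (a : ℝ) ^ (11 / 100 * δ)) * ((2000 / δ + 2) * (a : ℝ) ^ (11 / 100 * δ)) :=
      mul_le_mul (hJ X hX1 hXa) (hJ Y hY1 hYa) (Nat.cast_nonneg _) (by positivity)
    have h2 : ((Nat.log 2 X + 1 : ℕ) : ℝ) * (Nat.log 2 Y + 1 : ℕ) ≤
        ((200 / δ + 1) * (a : ℝ) ^ (δ / 100)) * ((200 / δ + 1) * (a : ℝ) ^ (δ / 100)) :=
      mul_le_mul (hLg X hX1 hXa) (hLg Y hY1 hYa) (Nat.cast_nonneg _) (by positivity)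
    have h3 := mul_le_mul h1 h2 (by positivity) (by positivity)
    have h4 : (a : ℝ) ^ (11 / 100 * δ) * (a : ℝ) ^ (11 / 100 * δ) * ((a : ℝ) ^ (δ / 100) *
        (a : ℝ) ^ (δ / 100)) * (a : ℝ) ^ (2 - δ / 2) ≤ (a : ℝ) ^ (2 - δ / 20) := by
      rw [← Real.rpow_add hA0, ← Real.rpow_add hA0, ← Real.rpow_add hA0, ← Real.rpow_add hA0]
      apply hmono
      linarith
    calc _ ≤ ((2000 / δ + 2) * (a : ℝ) ^ (11 / 100 * δ)) * ((2000 / δ + 2) *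
          (a : ℝ) ^ (11 / 100 * δ)) * (((200 / δ + 1) * (a : ℝ) ^ (δ / 100)) *
          ((200 / δ + 1) * (a : ℝ) ^ (δ / 100))) * (C₁ * (24 * (a : ℝ) ^ (2 - δ / 2))) :=
          mul_le_mul_of_nonneg_right h3 (by positivity)
      _ = (2000 / δ + 2) ^ 2 * (200 / δ + 1) ^ 2 * (C₁ * 24) *
          ((a : ℝ) ^ (11 / 100 * δ) * (a : ℝ) ^ (11 / 100 * δ) * ((a : ℝ) ^ (δ / 100) *
            (a : ℝ) ^ (δ / 100)) * (a : ℝ) ^ (2 - δ / 2)) := by ring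
      _ ≤ _ := mul_le_mul_of_nonneg_left h4 (by positivity)
  -- the error terms
  set HX : ℝ := ∑ m ∈ Icc 1 X, 1 / (m : ℝ) with hHX
  set HY : ℝ := ∑ m ∈ Icc 1 Y, 1 / (m : ℝ) with hHY
  have hHX0 : 0 ≤ HX := sum_nonneg fun m _ => by positivity
  have hHY0 : 0 ≤ HY := sum_nonneg fun m _ => by positivity
  have hHX1 : HX ≤ (1 + 100 / δ) * (a : ℝ) ^ (δ / 100) :=
    (harm a (Icc 1 X) (Icc_subset_Icc le_rfl hXa)).trans hl1
  have hHY1 : HY ≤ (1 + 100 / δ) * (a : ℝ) ^ (δ / 100) :=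
    (harm a (Icc 1 Y) (Icc_subset_Icc le_rfl hYa)).trans hl1
  have herr : ∑ m ∈ Icc 1 X, ∑ n ∈ Icc 1 Y, ∑ x ∈ Icc 1 X, ∑ y ∈ Icc 1 Y, G m n x y =
      (∑ m ∈ Icc 1 X, ∑ n ∈ Icc 1 Y, ∑ x ∈ Icc 1 X, ∑ y ∈ Icc 1 Y,
        (((NN a).filter (fun t : ℕ => ((t : ℝ) ≤ (a : ℝ) ^ 2 + 3 * η * a ^ 2 + k + 1 ∨
          4 * (a : ℝ) ^ 2 - 8 * η * a ^ 2 ≤ t) ∧ (m * n) ∣ vk t k ∧ (x * y) ∣ vk t k')).card : ℝ)) +
      ((10 * η * (a : ℝ) ^ 2 + 3 * k) * (HX * HY * (HX * HY)) + (X : ℝ) * Y * (HX * HY)) := by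
    simp only [hG, sum_add_distrib, ← mul_sum, sum_const, nsmul_eq_mul, Nat.card_Icc,
      Nat.add_sub_cancel]
    rw [← hHY]
    simp only [← sum_mul]
    rw [← hHX]
    simp only [← mul_sum, ← sum_mul]
    rw [← hHX, ← hHY]
    ring
  rw [herr]
  have hE1 := hL a k k' X Y η ha2 hk1 hka hk1' hka' hη0
  have hE1' : C₂ * (a : ℝ) ^ (δ / 100) * (η * (a : ℝ) ^ 2 + a) ≤ 2 * C₂ * (a : ℝ) ^ (2 - δ / 20) := by
    have h1 : η * (a : ℝ) ^ 2 + a ≤ 2 * (a : ℝ) ^ (2 - δ / 10) := by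
      rw [hηa]
      have h2 : (a : ℝ) ≤ (a : ℝ) ^ (2 - δ / 10) := by
        have := hmono 1 (2 - δ / 10) (by linarith)
        rwa [Real.rpow_one] at this
      have h3 : 0 < (a : ℝ) ^ (2 - δ / 10) := by positivity
      linarith
    have h4 : (a : ℝ) ^ (δ / 100) * (a : ℝ) ^ (2 - δ / 10) ≤ (a : ℝ) ^ (2 - δ / 20) := by
      rw [← Real.rpow_add hA0]
      apply hmono
      linarith
    calc C₂ * (a : ℝ) ^ (δ / 100) * (η * (a : ℝ) ^ 2 + a)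
        ≤ C₂ * (a : ℝ) ^ (δ / 100) * (2 * (a : ℝ) ^ (2 - δ / 10)) :=
          mul_le_mul_of_nonneg_left h1 (by positivity)
      _ = 2 * C₂ * ((a : ℝ) ^ (δ / 100) * (a : ℝ) ^ (2 - δ / 10)) := by ring
      _ ≤ _ := mul_le_mul_of_nonneg_left h4 (by positivity)
  have hHH : HX * HY ≤ ((1 + 100 / δ) * (a : ℝ) ^ (δ / 100)) * ((1 + 100 / δ) * (a : ℝ) ^ (δ / 100)) :=
    mul_le_mul hHX1 hHY1 hHY0 (by positivity)
  have hE2 : (10 * η * (a : ℝ) ^ 2 + 3 * k) * (HX * HY * (HX * HY)) ≤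
      4 * (1 + 100 / δ) ^ 4 * (a : ℝ) ^ (2 - δ / 20) := by
    have h1 : 10 * η * (a : ℝ) ^ 2 + 3 * k ≤ 4 * (a : ℝ) ^ (2 - δ / 10) := by
      have e1 : 10 * η * (a : ℝ) ^ 2 = (a : ℝ) ^ (2 - δ / 10) := by
        rw [mul_assoc, hηa]
        ring
      rw [e1]
      have h2 : (k : ℝ) ≤ (a : ℝ) ^ (2 - δ / 10) := hk.trans (hmono _ _ (by linarith))
      linarith
    have h3 : HX * HY * (HX * HY) ≤ (1 + 100 / δ) ^ 4 * ((a : ℝ) ^ (δ / 100)) ^ 4 := by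
      calc HX * HY * (HX * HY) ≤ _ := mul_le_mul hHH hHH (by positivity) (by positivity)
        _ = _ := by ring
    have h4 : (a : ℝ) ^ (2 - δ / 10) * ((a : ℝ) ^ (δ / 100)) ^ 4 ≤ (a : ℝ) ^ (2 - δ / 20) := by
      rw [← Real.rpow_natCast, ← Real.rpow_mul hA0.le, ← Real.rpow_add hA0]
      apply hmono
      push_cast
      linarith
    calc (10 * η * (a : ℝ) ^ 2 + 3 * k) * (HX * HY * (HX * HY))
        ≤ (4 * (a : ℝ) ^ (2 - δ / 10)) * ((1 + 100 / δ) ^ 4 * ((a : ℝ) ^ (δ / 100)) ^ 4) :=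
          mul_le_mul h1 h3 (by positivity) (by positivity)
      _ = 4 * (1 + 100 / δ) ^ 4 * ((a : ℝ) ^ (2 - δ / 10) * ((a : ℝ) ^ (δ / 100)) ^ 4) := by ring
      _ ≤ _ := mul_le_mul_of_nonneg_left h4 (by positivity)
  have hE3 : (X : ℝ) * Y * (HX * HY) ≤ (1 + 100 / δ) ^ 2 * (a : ℝ) ^ (2 - δ / 20) := by
    have h1 : (X : ℝ) * Y ≤ (a : ℝ) ^ (1 - δ) * (a : ℝ) ^ (1 / 10 - δ) :=
      mul_le_mul hXA hYA (Nat.cast_nonneg _) (by positivity)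
    have h4 : (a : ℝ) ^ (1 - δ) * (a : ℝ) ^ (1 / 10 - δ) * ((a : ℝ) ^ (δ / 100) *
        (a : ℝ) ^ (δ / 100)) ≤ (a : ℝ) ^ (2 - δ / 20) := by
      rw [← Real.rpow_add hA0, ← Real.rpow_add hA0, ← Real.rpow_add hA0]
      apply hmono
      linarith
    calc (X : ℝ) * Y * (HX * HY) ≤ _ := mul_le_mul h1 hHH (by positivity) (by positivity)
      _ = (1 + 100 / δ) ^ 2 * ((a : ℝ) ^ (1 - δ) * (a : ℝ) ^ (1 / 10 - δ) * ((a : ℝ) ^ (δ / 100) *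
        (a : ℝ) ^ (δ / 100))) := by ring
      _ ≤ _ := mul_le_mul_of_nonneg_left h4 (by positivity)
  have e9 : (2 * C₂ + 4 * (1 + 100 / δ) ^ 4 + (1 + 100 / δ) ^ 2 +
      (2000 / δ + 2) ^ 2 * (200 / δ + 1) ^ 2 * (C₁ * 24)) * (a : ℝ) ^ (2 - δ / 20) =
      2 * C₂ * (a : ℝ) ^ (2 - δ / 20) + 4 * (1 + 100 / δ) ^ 4 * (a : ℝ) ^ (2 - δ / 20) +
      (1 + 100 / δ) ^ 2 * (a : ℝ) ^ (2 - δ / 20) +
      (2000 / δ + 2) ^ 2 * (200 / δ + 1) ^ 2 * (C₁ * 24) * (a : ℝ) ^ (2 - δ / 20) := by ring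
  rw [e9]
  linarith

end Pool.Agent.Helper79.KP
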